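import Pool.Agent.H780R2.Mallows.Geo3
import Pool.Agent.H780R2.Mallows.Crit

/-!
# Minimal Fisher information of a Gaussian with symmetric additive noise

For `0 < α < 1` let `𝒢_α` be the class of symmetric probability measures on `ℝ` with an atom of
mass exactly `α` at `0`. We show that the Fisher information of the normal mixture
`f(x) = ∫ φ(x-u) dG(u)` has a unique minimiser `G ∈ 𝒢_α`, that it is a step function (with
infinitely many atoms, without accumulation point), that it never has the suggested form of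
geometric weights on an arithmetic progression, and we give a necessary and sufficient condition
that characterises it.
-/

set_option autoImplicit false

namespace Pool.Agent.Results.MP_1b24b4_pr.MallowsMinimizer

open Real MeasureTheory Set Filter Topology

/-- The standard Gaussian density. -/
noncomputable def phi (u : ℝ) : ℝ := (√(2 * π))⁻¹ * exp (-(u ^ 2) / 2)

/-- The class `𝒢_α` (as measures): probability measures on `ℝ`, symmetric about `0`, with an atom
of mass exactly `α` at `0`. -/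
structure InClass (α : ℝ) (G : Measure ℝ) : Prop where
  prob : IsProbabilityMeasure G
  symm : G.map (fun u => -u) = G
  atom : G {0} = ENNReal.ofReal α

/-- The density `f(x) = ∫ φ(x-u) dG(u)`. -/
noncomputable def dens (G : Measure ℝ) (x : ℝ) : ℝ := ∫ u, phi (x - u) ∂G

/-- The Fisher information `I_f = ∫ f'(x)² / f(x) dx`. -/
noncomputable def fisher (G : Measure ℝ) : ENNReal :=
  ∫⁻ x, ENNReal.ofReal ((deriv (dens G) x) ^ 2 / dens G x)

/-- `G` minimises the Fisher information over `𝒢_α`. -/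
def IsMinimizer (α : ℝ) (G : Measure ℝ) : Prop :=
  InClass α G ∧ ∀ G', InClass α G' → fisher G ≤ fisher G'

/-- The measure `α δ_0 + ∑_n p_n (δ_{g_n} + δ_{-g_n})` of a step function. -/
noncomputable def stepMeasure (α : ℝ) (g p : ℕ → ℝ) : Measure ℝ :=
  ENNReal.ofReal α • Measure.dirac 0 +
    Measure.sum (fun n => ENNReal.ofReal (p n) • (Measure.dirac (g n) + Measure.dirac (-(g n))))

/-- `∫ (2 (f'/f)(x) φ'(x-u) - (f'/f)(x)² φ(x-u)) dx`, the derivative of the Fisher information
at `G` in the direction of a unit mass at `u` (note `φ'(t) = -t φ(t)`). -/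
noncomputable def dirDeriv (G : Measure ℝ) (u : ℝ) : ℝ :=
  ∫ x, (2 * (deriv (dens G) x / dens G x) * (-((x - u) * phi (x - u)))
    - (deriv (dens G) x / dens G x) ^ 2 * phi (x - u))

open Pool.Agent.H780R2

lemma inClass_iff (α : ℝ) (G : Measure ℝ) : InClass α G ↔ Mallows.InClass α G :=
  ⟨fun h => ⟨h.prob, h.symm, h.atom⟩, fun h => ⟨h.prob, h.symm, h.atom⟩⟩

lemma fisher_eq (G : Measure ℝ) : fisher G = Mallows.fisher G := rfl

lemma isMinimizer_iff {α : ℝ} (h0 : 0 < α) (h1 : α < 1) (G : Measure ℝ) :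
    IsMinimizer α G ↔ Mallows.InClass α G ∧ ∀ ν, Mallows.Adm α ν → Mallows.fish G ≤ Mallows.fish ν := by
  constructor
  · rintro ⟨hG, hmin⟩
    have hG' := (inClass_iff α G).1 hG
    exact ⟨hG', hG'.min_adm h0 h1 fun ν hν => hmin ν ((inClass_iff α ν).2 hν)⟩
  · rintro ⟨hG, hmin⟩
    refine ⟨(inClass_iff α G).2 hG, fun ν hν => ?_⟩
    have hν' := (inClass_iff α ν).1 hν
    rw [fisher_eq, fisher_eq, hG.adm.fisher_eq h0, hν'.adm.fisher_eq h0]
    exact ENNReal.ofReal_le_ofReal (hmin ν hν'.adm)

lemma dirDeriv_eq {α : ℝ} {G : Measure ℝ} (h : Mallows.InClass α G) (u : ℝ) :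
    dirDeriv G u = Mallows.Jfun G u := by
  have := h.prob
  unfold dirDeriv Mallows.Jfun
  refine integral_congr_ae (Eventually.of_forall fun x => ?_)
  have e : deriv (dens G) x / dens G x = Mallows.score G x := by
    have : deriv (dens G) = Mallows.dens1 G := Mallows.deriv_dens G
    rw [this]
    rfl
  simp only
  rw [e]
  have e2 : phi (x - u) = Mallows.phi (x - u) := rfl
  rw [e2]
  ring

/-- **Theorem.** Let `0 < α < 1`.
(1) There is exactly one minimiser of the Fisher information over `𝒢_α`.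
(2) It is a step function: `G = α δ_0 + ∑_n p_n (δ_{g_n} + δ_{-g_n})` with
    `0 < g_0 < g_1 < ... → ∞` and `p_n > 0`.
(3) It is never of the suggested explicit form: for no `c, p, g > 0` are the positive atoms
    `j g` with masses `c p^j` (`j ≥ 1`).
(4) `G ∈ 𝒢_α` is the minimiser if and only if
    `I_f ≤ α D(0) + (1-α) D(u)` for all real `u`, where `D = dirDeriv G`. -/
theorem result (α : ℝ) (h0 : 0 < α) (h1 : α < 1) :
    (∃! G : Measure ℝ, IsMinimizer α G) ∧
    (∀ G, IsMinimizer α G → ∃ g p : ℕ → ℝ, StrictMono g ∧ 0 < g 0 ∧ Tendsto g atTop atTop ∧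
      (∀ n, 0 < p n) ∧ G = stepMeasure α g p) ∧
    (∀ G, IsMinimizer α G → ∀ c p g : ℝ, 0 < c → 0 < p → 0 < g →
      G ≠ stepMeasure α (fun n => (n + 1) * g) (fun n => c * p ^ (n + 1))) ∧
    (∀ G, InClass α G → (IsMinimizer α G ↔
      ∀ u, (fisher G).toReal ≤ α * dirDeriv G 0 + (1 - α) * dirDeriv G u)) := by
  refine ⟨?_, ?_, ?_, ?_⟩
  · obtain ⟨G, hG, hmin⟩ := Mallows.exists_min_class h0 h1
    refine ⟨G, (isMinimizer_iff h0 h1 G).2 ⟨hG, hmin⟩, fun G' hG' => ?_⟩
    obtain ⟨hc', hm'⟩ := (isMinimizer_iff h0 h1 G').1 hG'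
    exact Mallows.unique_min hc' hG h0 hm' hmin
  · intro G hG
    obtain ⟨hc, hm⟩ := (isMinimizer_iff h0 h1 G).1 hG
    exact hc.adm.discrete h0 h1 hm
  · intro G hG c p g hc hp hg
    obtain ⟨hcl, hm⟩ := (isMinimizer_iff h0 h1 G).1 hG
    exact hcl.adm.not_geometric h0 h1 hm hc hp hg
  · intro G hG
    have hG' := (inClass_iff α G).1 hG
    have hf : (fisher G).toReal = Mallows.fish G := by
      rw [fisher_eq, hG'.adm.fisher_eq h0, ENNReal.toReal_ofReal hG'.adm.fish_nonneg]
    rw [hf]
    simp_rw [dirDeriv_eq hG']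
    rw [← hG'.criterion h0 h1, isMinimizer_iff h0 h1]
    exact ⟨fun h => h.2, fun h => ⟨hG', h⟩⟩

end Pool.Agent.Results.MP_1b24b4_pr.MallowsMinimizer
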